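import Mathlib

/-!
# Linear substitution in polynomials and the apolar pairing
-/

set_option autoImplicit false

open MvPolynomial

namespace Pool.Agent.H9.IP

/-- `p(A x)`: the variable `x_i` is replaced by `∑_j A i j x_j`. -/
noncomputable def lsub {n : ℕ} (A : Matrix (Fin n) (Fin n) ℝ) (p : MvPolynomial (Fin n) ℝ) :
    MvPolynomial (Fin n) ℝ :=
  aeval (fun i => ∑ j, C (A i j) * X j) p

/-- the apolar pairing `∑_α α! D_α p_α` -/
noncomputable def pair {n : ℕ} (D p : MvPolynomial (Fin n) ℝ) : ℝ :=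
  ∑ α ∈ D.support, coeff α D * (∏ i, ((α i).factorial : ℝ)) * coeff α p

end Pool.Agent.H9.IP
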