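import Pool.Agent.H9.IP.Main

/-!
# Invariant polynomials: inhomogeneous polynomials and the dual statement
-/

set_option autoImplicit false

open MvPolynomial Matrix Module

namespace Pool.Agent.H9.IP

private theorem eval_smul_sum {n : ℕ} (p : MvPolynomial (Fin n) ℝ) (t : ℝ) (x : Fin n → ℝ) :
    eval (t • x) p = ∑ k ∈ Finset.range (p.totalDegree + 1), t ^ k *
      eval x (homogeneousComponent k p) := by
  conv_lhs => rw [← MvPolynomial.sum_homogeneousComponent p]
  rw [map_sum]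
  refine Finset.sum_congr rfl fun k _ => ?_
  have h := homogeneousComponent_isHomogeneous k p
  set q := homogeneousComponent k p with hq
  rw [MvPolynomial.eval_eq, MvPolynomial.eval_eq, Finset.mul_sum]
  refine Finset.sum_congr rfl fun α hα => ?_
  have h1 : ∑ i, α i = k := by
    have h2 := h (MvPolynomial.mem_support_iff.1 hα)
    have h5 : (Finsupp.weight 1) α = ∑ i, α i := by
      rw [Finsupp.weight_apply, Finsupp.sum_fintype _ _ (by simp)]
      simp
    rw [← h2, h5]
  have h3 : ∏ i ∈ α.support, (t • x) i ^ α i = t ^ k * ∏ i ∈ α.support, x i ^ α i := by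
    rw [← h1, ← Finset.prod_pow_eq_pow_sum]
    have h4 : ∏ i, t ^ α i = ∏ i ∈ α.support, t ^ α i := by
      symm
      apply Finset.prod_subset (Finset.subset_univ _)
      intro i _ hi
      rw [Finsupp.notMem_support_iff.1 hi, pow_zero]
    rw [h4, ← Finset.prod_mul_distrib]
    refine Finset.prod_congr rfl fun i _ => ?_
    rw [Pi.smul_apply, smul_eq_mul, mul_pow]
  rw [h3]
  ring

/-- homogeneous components of an invariant polynomial are invariant -/
theorem comp_inv {n : ℕ} (A : Matrix (Fin n) (Fin n) ℝ) (p : MvPolynomial (Fin n) ℝ)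
    (h : ∀ x, eval (A *ᵥ x) p = eval x p) (k : ℕ) (x : Fin n → ℝ) :
    eval (A *ᵥ x) (homogeneousComponent k p) = eval x (homogeneousComponent k p) := by
  by_cases hk : k ∈ Finset.range (p.totalDegree + 1)
  · let q : Polynomial ℝ := ∑ j ∈ Finset.range (p.totalDegree + 1),
      Polynomial.C (eval (A *ᵥ x) (homogeneousComponent j p) - eval x (homogeneousComponent j p)) *
        Polynomial.X ^ j
    have hq : q = 0 := by
      apply Polynomial.funext
      intro t
      have h1 := h (t • x)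
      rw [Matrix.mulVec_smul, eval_smul_sum, eval_smul_sum] at h1
      show Polynomial.eval t (∑ j ∈ Finset.range (p.totalDegree + 1), _) = _
      rw [Polynomial.eval_finsetSum, Polynomial.eval_zero, ← sub_eq_zero.2 h1,
        ← Finset.sum_sub_distrib]
      refine Finset.sum_congr rfl fun j _ => ?_
      simp
      ring
    have h2 : q.coeff k = eval (A *ᵥ x) (homogeneousComponent k p) -
        eval x (homogeneousComponent k p) := by
      show Polynomial.coeff (∑ j ∈ Finset.range (p.totalDegree + 1), _) k = _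
      rw [Polynomial.finsetSum_coeff]
      simp only [Polynomial.coeff_C_mul_X_pow]
      rw [Finset.sum_ite_eq, if_pos hk]
    rw [hq, Polynomial.coeff_zero] at h2
    exact (sub_eq_zero.1 h2.symm)
  · have h1 : homogeneousComponent k p = 0 := by
      apply MvPolynomial.homogeneousComponent_eq_zero
      rw [Finset.mem_range] at hk
      omega
    rw [h1, map_zero, map_zero]

private theorem exists_comp {n : ℕ} (p : MvPolynomial (Fin n) ℝ) (hp : ∀ c, p ≠ C c) :
    ∃ k, 0 < k ∧ homogeneousComponent k p ≠ 0 := by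
  by_contra hcon
  push Not at hcon
  apply hp (coeff 0 p)
  rw [← homogeneousComponent_zero]
  conv_lhs => rw [← MvPolynomial.sum_homogeneousComponent p]
  rw [Finset.sum_eq_single 0]
  · intro k _ hk
    exact hcon k (Nat.pos_of_ne_zero hk)
  · intro h0
    exact absurd (Finset.mem_range.2 (Nat.succ_pos _)) h0

/-- the inhomogeneous form -/
theorem core' {n : ℕ} (hn : 2 ≤ n) (H Γ : Subgroup (SpecialLinearGroup (Fin n) ℝ))
    (hc : ∃ C : Set (SpecialLinearGroup (Fin n) ℝ), IsCompact C ∧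
      ∀ g, ∃ γ ∈ Γ, ∃ h ∈ H, γ * g * h ∈ C)
    (D f : MvPolynomial (Fin n) ℝ) (hD : ∀ c, D ≠ C c)
    (hDi : ∀ h ∈ H, ∀ b, eval ((h : Matrix (Fin n) (Fin n) ℝ)ᵀ *ᵥ b) D = eval b D)
    (hfi : ∀ γ ∈ Γ, ∀ v, eval ((γ : Matrix (Fin n) (Fin n) ℝ) *ᵥ v) f = eval v f) :
    ∃ c, f = C c := by
  by_contra hcon
  push Not at hcon
  obtain ⟨k, hk, hDk⟩ := exists_comp D hD
  obtain ⟨r, hr, hfr⟩ := exists_comp f hcon
  exact hfr (core hn H Γ hc _ _ k r hk hr (homogeneousComponent_isHomogeneous k D)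
    (homogeneousComponent_isHomogeneous r f) hDk (fun h hh b => comp_inv _ D (hDi h hh) k b)
    (fun γ hγ v => comp_inv _ f (hfi γ hγ) r v))

/-- the automorphism `g ↦ (g⁻¹)ᵀ` -/
private def tau (n : ℕ) : SpecialLinearGroup (Fin n) ℝ →* SpecialLinearGroup (Fin n) ℝ where
  toFun g := (g⁻¹).transpose
  map_one' := by
    apply Subtype.ext
    rw [Matrix.SpecialLinearGroup.coe_transpose, inv_one, Matrix.SpecialLinearGroup.coe_one,
      Matrix.transpose_one]
  map_mul' g h := by
    apply Subtype.ext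
    rw [Matrix.SpecialLinearGroup.coe_transpose, Matrix.SpecialLinearGroup.coe_mul,
      Matrix.SpecialLinearGroup.coe_transpose, Matrix.SpecialLinearGroup.coe_transpose,
      _root_.mul_inv_rev, Matrix.SpecialLinearGroup.coe_mul, Matrix.transpose_mul]

private theorem tau_val {n : ℕ} (g : SpecialLinearGroup (Fin n) ℝ) :
    (tau n g : Matrix (Fin n) (Fin n) ℝ) =
      ((g⁻¹ : SpecialLinearGroup (Fin n) ℝ) : Matrix (Fin n) (Fin n) ℝ)ᵀ := rfl

private theorem tau_tau {n : ℕ} (g : SpecialLinearGroup (Fin n) ℝ) : tau n (tau n g) = g := by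
  apply Subtype.ext
  rw [tau_val, ← map_inv, tau_val, Matrix.transpose_transpose, inv_inv]

private theorem tau_cont (n : ℕ) : Continuous (tau n) := by
  refine continuous_induced_rng.2 ?_
  have h1 : Continuous fun g : SpecialLinearGroup (Fin n) ℝ =>
      ((g⁻¹ : SpecialLinearGroup (Fin n) ℝ) : Matrix (Fin n) (Fin n) ℝ) :=
    continuous_subtype_val.comp continuous_inv
  exact h1.matrix_transpose

/-- the dual statement -/
theorem core_dual {n : ℕ} (hn : 2 ≤ n) (H Γ : Subgroup (SpecialLinearGroup (Fin n) ℝ))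
    (hc : ∃ C : Set (SpecialLinearGroup (Fin n) ℝ), IsCompact C ∧
      ∀ g, ∃ γ ∈ Γ, ∃ h ∈ H, γ * g * h ∈ C)
    (D f : MvPolynomial (Fin n) ℝ) (hD : ∀ c, D ≠ C c)
    (hDi : ∀ h ∈ H, ∀ v, eval ((h : Matrix (Fin n) (Fin n) ℝ) *ᵥ v) D = eval v D)
    (hfi : ∀ γ ∈ Γ, ∀ b, eval ((γ : Matrix (Fin n) (Fin n) ℝ)ᵀ *ᵥ b) f = eval b f) :
    ∃ c, f = C c := by
  refine core' hn (H.map (tau n)) (Γ.map (tau n)) ?_ D f hD ?_ ?_
  · obtain ⟨K, hK, hKg⟩ := hc
    refine ⟨tau n '' K, hK.image (tau_cont n), fun g => ?_⟩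
    obtain ⟨γ, hγ, h, hh, hgh⟩ := hKg (tau n g)
    refine ⟨tau n γ, ⟨γ, hγ, rfl⟩, tau n h, ⟨h, hh, rfl⟩, ⟨_, hgh, ?_⟩⟩
    rw [map_mul, map_mul, tau_tau]
  · rintro _ ⟨h, hh, rfl⟩ b
    rw [tau_val, Matrix.transpose_transpose]
    exact hDi _ (H.inv_mem hh) b
  · rintro _ ⟨γ, hγ, rfl⟩ v
    rw [tau_val]
    exact hfi _ (Γ.inv_mem hγ) v

end Pool.Agent.H9.IP
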