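import Mathlib

/-!
# `SL(n, ℝ)` is generated by transvections

Proof. `Matrix.SpecialLinearGroup.diagonal_transvection_induction'`: it is enough to treat the
diagonal matrices with entries `a, 1/a` in two places, and each of them is a product of six
transvections (Whitehead).
-/

set_option autoImplicit false

open Matrix

namespace Pool.Agent.H9.IP

private theorem diag_mat {n : ℕ} {i j : Fin n} (hij : i ≠ j) (a : ℝ) (ha : a ≠ 0) :
    transvection i j a * (transvection j i (-a⁻¹) * (transvection i j a * (transvection i j (-1) *
      (transvection j i 1 * transvection i j (-1))))) =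
      diagonal (fun k => if k = i then a else if k = j then a⁻¹ else 1) := by
  have h1 : ∀ l, transvection i j (-1 : ℝ) i l = (1 : Matrix (Fin n) (Fin n) ℝ) i l -
      (1 : Matrix (Fin n) (Fin n) ℝ) j l := by
    intro l
    have := transvection_mul_apply_same i j l (-1 : ℝ) (1 : Matrix (Fin n) (Fin n) ℝ)
    rw [mul_one] at this
    rw [this]
    ring
  have h2 : ∀ k l, k ≠ i → transvection i j (-1 : ℝ) k l = (1 : Matrix (Fin n) (Fin n) ℝ) k l := by
    intro k l hk
    have := transvection_mul_apply_of_ne i j k l hk (-1 : ℝ) (1 : Matrix (Fin n) (Fin n) ℝ)
    rw [mul_one] at this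
    exact this
  have hji : j ≠ i := hij.symm
  ext k l
  rcases eq_or_ne k i with rfl | hk
  · simp only [transvection_mul_apply_same, transvection_mul_apply_of_ne _ _ _ _ hij,
      transvection_mul_apply_of_ne _ _ _ _ hji, h1, h2 _ _ hji]
    rw [diagonal_apply, one_apply, one_apply]
    rcases eq_or_ne k l with rfl | hl
    · simp only [if_true, if_neg hji]
      field_simp
      ring
    · rcases eq_or_ne j l with rfl | hl'
      · simp only [if_true, if_neg hij]
        field_simp
        ring
      · simp [hl, hl']
  · rcases eq_or_ne k j with rfl | hk'
    · simp only [transvection_mul_apply_same, transvection_mul_apply_of_ne _ _ _ _ hij,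
        transvection_mul_apply_of_ne _ _ _ _ hji, h1, h2 _ _ hji]
      rw [diagonal_apply, one_apply, one_apply]
      rcases eq_or_ne k l with rfl | hl
      · simp only [if_true, if_neg hij, if_neg hk]
        field_simp
        ring
      · rcases eq_or_ne i l with rfl | hl'
        · simp only [if_true, if_neg hk]
          field_simp
          ring
        · simp [hl, hl']
    · simp only [transvection_mul_apply_of_ne _ _ _ _ hk, transvection_mul_apply_of_ne _ _ _ _ hk',
        h2 _ _ hk]
      rw [diagonal_apply, one_apply]
      simp [hk, hk']

/-- a function on `SL(n, ℝ)` which is invariant under right multiplication by transvections is constant -/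
theorem const_of_transvection {n : ℕ} (F : SpecialLinearGroup (Fin n) ℝ → ℝ)
    (hF : ∀ (g e : SpecialLinearGroup (Fin n) ℝ) (i j : Fin n) (t : ℝ), i ≠ j →
      (e : Matrix (Fin n) (Fin n) ℝ) = transvection i j t → F (g * e) = F g)
    (g : SpecialLinearGroup (Fin n) ℝ) : F g = F 1 := by
  rcases subsingleton_or_nontrivial (Fin n) with hs | hnt
  · have h1 : g = 1 := Subsingleton.elim _ _
    rw [h1]
  have hT : ∀ (i j : Fin n) (hij : i ≠ j) (t : ℝ) (x : SpecialLinearGroup (Fin n) ℝ),
      F (x * SpecialLinearGroup.transvection hij t) = F x := fun i j hij t x =>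
    hF x _ i j t hij rfl
  have key : ∀ x, F (x * g) = F x := by
    refine SpecialLinearGroup.diagonal_transvection_induction'
      (fun h => ∀ x, F (x * h) = F x) g ?_ (fun i j hij a x => hT i j hij a x) ?_
    · intro i j hij c hc x
      have h1 : SpecialLinearGroup.diag2n hij c hc =
          SpecialLinearGroup.transvection hij c *
          (SpecialLinearGroup.transvection hij.symm (-c⁻¹) *
          (SpecialLinearGroup.transvection hij c *
          (SpecialLinearGroup.transvection hij (-1) *
          (SpecialLinearGroup.transvection hij.symm 1 *
          SpecialLinearGroup.transvection hij (-1))))) := by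
        apply Subtype.ext
        exact (diag_mat hij c hc).symm
      rw [h1]
      simp only [← mul_assoc]
      simp only [hT]
    · intro A B hA hB x
      rw [← mul_assoc, hB, hA]
  have := key 1
  rwa [one_mul] at this

end Pool.Agent.H9.IP
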