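import Pool.Agent.H9.IP.Defs

/-!
# The apolar pairing: invariance and powers of linear forms

Proof. `pair (D * X i) p = pair D (pderiv i p)` (on monomials: `coeff_pderiv`); hence, with the chain rule
`pderiv i (lsub A p) = ∑ j, C (A j i) * lsub A (pderiv j p)` (induction on `p`), `pair_lsub` follows by
`MvPolynomial.induction_on D` (for all `p`). `pair_pow`: by induction on the exponent of a monomial `D`,
`pair (D * X i) (l ^ (K+1)) = (K+1) b_i pair D (l ^ K)`, then sum over the monomials of `D`.
-/

set_option autoImplicit false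

open MvPolynomial

namespace Pool.Agent.H9.IP

private theorem pp_sub {n : ℕ} (S : Finset (Fin n →₀ ℕ)) (D p : MvPolynomial (Fin n) ℝ)
    (h : D.support ⊆ S) :
    pair D p = ∑ α ∈ S, coeff α D * (∏ i, ((α i).factorial : ℝ)) * coeff α p := by
  unfold pair
  refine Finset.sum_subset h fun α _ hα => ?_
  rw [notMem_support_iff.1 hα, zero_mul, zero_mul]

private theorem pp_add {n : ℕ} (D E p : MvPolynomial (Fin n) ℝ) :
    pair (D + E) p = pair D p + pair E p := by
  classical
  rw [pp_sub (D.support ∪ E.support) (D + E) p support_add,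
    pp_sub (D.support ∪ E.support) D p Finset.subset_union_left,
    pp_sub (D.support ∪ E.support) E p Finset.subset_union_right, ← Finset.sum_add_distrib]
  refine Finset.sum_congr rfl fun α _ => ?_
  rw [coeff_add]
  ring

private theorem pp_C {n : ℕ} (a : ℝ) (D p : MvPolynomial (Fin n) ℝ) :
    pair (C a * D) p = a * pair D p := by
  classical
  have hs : (C a * D).support ⊆ D.support := by
    intro α hα
    rw [mem_support_iff, coeff_C_mul] at hα
    rw [mem_support_iff]
    exact right_ne_zero_of_mul hα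
  rw [pp_sub D.support (C a * D) p hs, pp_sub D.support D p subset_rfl, Finset.mul_sum]
  refine Finset.sum_congr rfl fun α _ => ?_
  rw [coeff_C_mul]
  ring

private theorem pp_radd {n : ℕ} (D p q : MvPolynomial (Fin n) ℝ) :
    pair D (p + q) = pair D p + pair D q := by
  unfold pair
  rw [← Finset.sum_add_distrib]
  refine Finset.sum_congr rfl fun α _ => ?_
  rw [coeff_add]
  ring

private theorem pp_rC {n : ℕ} (a : ℝ) (D p : MvPolynomial (Fin n) ℝ) :
    pair D (C a * p) = a * pair D p := by
  unfold pair
  rw [Finset.mul_sum]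
  refine Finset.sum_congr rfl fun α _ => ?_
  rw [coeff_C_mul]
  ring

private theorem pp_zero {n : ℕ} (p : MvPolynomial (Fin n) ℝ) : pair 0 p = 0 := by
  unfold pair
  rw [support_zero, Finset.sum_empty]

private theorem pp_rzero {n : ℕ} (D : MvPolynomial (Fin n) ℝ) : pair D 0 = 0 := by
  unfold pair
  refine Finset.sum_eq_zero fun α _ => ?_
  rw [coeff_zero, mul_zero]

private theorem pp_sum {n : ℕ} {I : Type*} (s : Finset I) (D : I → MvPolynomial (Fin n) ℝ)
    (p : MvPolynomial (Fin n) ℝ) : pair (∑ i ∈ s, D i) p = ∑ i ∈ s, pair (D i) p := by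
  classical
  induction s using Finset.induction_on with
  | empty => rw [Finset.sum_empty, Finset.sum_empty, pp_zero]
  | insert a s ha ih => rw [Finset.sum_insert ha, Finset.sum_insert ha, pp_add, ih]

private theorem pp_rsum {n : ℕ} {I : Type*} (s : Finset I) (D : MvPolynomial (Fin n) ℝ)
    (p : I → MvPolynomial (Fin n) ℝ) : pair D (∑ i ∈ s, p i) = ∑ i ∈ s, pair D (p i) := by
  classical
  induction s using Finset.induction_on with
  | empty => rw [Finset.sum_empty, Finset.sum_empty, pp_rzero]
  | insert a s ha ih => rw [Finset.sum_insert ha, Finset.sum_insert ha, pp_radd, ih]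

private theorem pp_mono {n : ℕ} (α : Fin n →₀ ℕ) (a : ℝ) (p : MvPolynomial (Fin n) ℝ) :
    pair (monomial α a) p = a * (∏ i, ((α i).factorial : ℝ)) * coeff α p := by
  classical
  rw [pp_sub {α} (monomial α a) p support_monomial_subset, Finset.sum_singleton, coeff_monomial,
    if_pos rfl]

private theorem pp_mulX {n : ℕ} (D p : MvPolynomial (Fin n) ℝ) (i : Fin n) :
    pair (D * X i) p = pair D (pderiv i p) := by
  classical
  induction D using MvPolynomial.induction_on' with
  | add D E h1 h2 => rw [add_mul, pp_add, pp_add, h1, h2]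
  | monomial α a =>
    have e : (monomial α a : MvPolynomial (Fin n) ℝ) * X i =
        monomial (α + Finsupp.single i 1) a := by
      rw [X, monomial_mul, mul_one]
    rw [e, pp_mono, pp_mono, coeff_pderiv]
    have hf : (∏ k, (((α + Finsupp.single i 1 : Fin n →₀ ℕ) k).factorial : ℝ)) =
        (∏ k, ((α k).factorial : ℝ)) * (α i + 1) := by
      have h1 : ∀ k, (((α + Finsupp.single i 1 : Fin n →₀ ℕ) k).factorial : ℝ) =
          ((α k).factorial : ℝ) * (if k = i then ((α i : ℝ) + 1) else 1) := by
        intro k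
        by_cases hk : k = i
        · subst hk
          rw [if_pos rfl, Finsupp.add_apply, Finsupp.single_eq_same, Nat.factorial_succ]
          push_cast
          ring
        · rw [if_neg hk, Finsupp.add_apply, Finsupp.single_eq_of_ne hk, add_zero, mul_one]
      rw [Finset.prod_congr rfl fun k _ => h1 k, Finset.prod_mul_distrib,
        Finset.prod_ite_eq' Finset.univ i, if_pos (Finset.mem_univ _)]
    rw [hf]
    ring

private theorem ls_C {n : ℕ} (A : Matrix (Fin n) (Fin n) ℝ) (a : ℝ) :
    lsub A (C a) = C a := by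
  unfold lsub
  rw [aeval_C]
  rfl

private theorem ls_add {n : ℕ} (A : Matrix (Fin n) (Fin n) ℝ) (p q : MvPolynomial (Fin n) ℝ) :
    lsub A (p + q) = lsub A p + lsub A q := map_add _ _ _

private theorem ls_mul {n : ℕ} (A : Matrix (Fin n) (Fin n) ℝ) (p q : MvPolynomial (Fin n) ℝ) :
    lsub A (p * q) = lsub A p * lsub A q := map_mul _ _ _

private theorem ls_X {n : ℕ} (A : Matrix (Fin n) (Fin n) ℝ) (i : Fin n) :
    lsub A (X i) = ∑ j, C (A i j) * X j := aeval_X _ _

/-- the derivative of a linear form -/
private theorem pd_lin {n : ℕ} (c : Fin n → ℝ) (i : Fin n) :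
    pderiv i (∑ j, C (c j) * X j : MvPolynomial (Fin n) ℝ) = C (c i) := by
  classical
  rw [map_sum]
  have h : ∀ j, pderiv i (C (c j) * X j : MvPolynomial (Fin n) ℝ) =
      if j = i then C (c j) else 0 := by
    intro j
    rw [pderiv_C_mul, pderiv_X]
    by_cases hj : j = i
    · subst hj
      simp
    · simp [hj]
  rw [Finset.sum_congr rfl fun j _ => h j, Finset.sum_ite_eq' Finset.univ i,
    if_pos (Finset.mem_univ _)]

/-- the chain rule -/
private theorem chain {n : ℕ} (A : Matrix (Fin n) (Fin n) ℝ) (i : Fin n)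
    (p : MvPolynomial (Fin n) ℝ) :
    pderiv i (lsub A p) = ∑ j, C (A j i) * lsub A (pderiv j p) := by
  classical
  induction p using MvPolynomial.induction_on with
  | C a =>
    rw [ls_C, pderiv_C]
    refine (Finset.sum_eq_zero fun j _ => ?_).symm
    rw [pderiv_C, show (0 : MvPolynomial (Fin n) ℝ) = C 0 from (C_0).symm, ls_C, C_0, mul_zero]
  | add p q h1 h2 =>
    rw [ls_add, map_add, h1, h2, ← Finset.sum_add_distrib]
    refine Finset.sum_congr rfl fun j _ => ?_
    rw [map_add, ls_add, mul_add]
  | mul_X p k h =>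
    rw [ls_mul, pderiv_mul, h, ls_X, pd_lin]
    have h1 : ∀ j, C (A j i) * lsub A (pderiv j (p * X k)) =
        C (A j i) * lsub A (pderiv j p) * (∑ l, C (A k l) * X l) +
          (if j = k then C (A k i) * lsub A p else 0) := by
      intro j
      rw [pderiv_mul, ls_add, ls_mul, ls_mul, ls_X, pderiv_X, mul_add, mul_assoc]
      congr 1
      by_cases hj : j = k
      · subst hj
        rw [if_pos rfl, Pi.single_eq_same,
          show (1 : MvPolynomial (Fin n) ℝ) = C 1 from (C_1).symm, ls_C, C_1, mul_one]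
      · rw [if_neg hj, Pi.single_apply, if_neg (Ne.symm hj),
          show (0 : MvPolynomial (Fin n) ℝ) = C 0 from (C_0).symm, ls_C, C_0, mul_zero, mul_zero]
    rw [Finset.sum_congr rfl fun j _ => h1 j, Finset.sum_add_distrib, Finset.sum_mul,
      Finset.sum_ite_eq' Finset.univ k, if_pos (Finset.mem_univ _)]
    ring

private theorem coeff0 {n : ℕ} (A : Matrix (Fin n) (Fin n) ℝ) (p : MvPolynomial (Fin n) ℝ) :
    coeff 0 (lsub A p) = coeff 0 p := by
  have h : (constantCoeff (σ := Fin n) (R := ℝ)).comp
      ((aeval (fun i => ∑ j, C (A i j) * X j) :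
        MvPolynomial (Fin n) ℝ →ₐ[ℝ] MvPolynomial (Fin n) ℝ) : MvPolynomial (Fin n) ℝ →+*
          MvPolynomial (Fin n) ℝ) = constantCoeff := by
    refine ringHom_ext (fun r => ?_) fun i => ?_
    · simp
    · simp
  exact DFunLike.congr_fun h p

theorem pair_lsub {n : ℕ} (A : Matrix (Fin n) (Fin n) ℝ) (D p : MvPolynomial (Fin n) ℝ) :
    pair (lsub A.transpose D) p = pair D (lsub A p) := by
  induction D using MvPolynomial.induction_on generalizing p with
  | C a =>
    rw [ls_C]
    have e : (C a : MvPolynomial (Fin n) ℝ) = monomial 0 a := rfl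
    rw [e, pp_mono, pp_mono, coeff0]
  | add D E h1 h2 => rw [ls_add, pp_add, pp_add, h1, h2]
  | mul_X D i h =>
    rw [ls_mul, ls_X, pp_mulX, chain, pp_rsum, Finset.mul_sum, pp_sum]
    refine Finset.sum_congr rfl fun j _ => ?_
    rw [pp_rC, ← h, ← pp_mulX, Matrix.transpose_apply, ← pp_C]
    congr 1
    ring

/-- powers of linear forms against a monomial -/
private theorem pow_mono {n : ℕ} (b : Fin n → ℝ) : ∀ (K : ℕ) (α : Fin n →₀ ℕ), α.degree = K →
    pair (monomial α 1) ((∑ j, C (b j) * X j : MvPolynomial (Fin n) ℝ) ^ K) =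
      (K.factorial : ℝ) * ∏ i, b i ^ α i := by
  classical
  intro K
  induction K with
  | zero =>
    intro α hα
    rw [Finsupp.degree_eq_zero_iff] at hα
    subst hα
    rw [pow_zero, pp_mono]
    simp
  | succ K ih =>
    intro α hα
    obtain ⟨i, hi⟩ : ∃ i, α i ≠ 0 := by
      by_contra hcon
      push Not at hcon
      have : α = 0 := Finsupp.ext hcon
      rw [this, map_zero] at hα
      omega
    obtain ⟨β, hβ⟩ : ∃ β : Fin n →₀ ℕ, β + Finsupp.single i 1 = α := by
      refine ⟨α - Finsupp.single i 1, tsub_add_cancel_of_le ?_⟩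
      rw [Finsupp.single_le_iff]
      omega
    have hβd : β.degree = K := by
      rw [← hβ, map_add, Finsupp.degree_single] at hα
      omega
    have e : (monomial α (1 : ℝ) : MvPolynomial (Fin n) ℝ) = monomial β 1 * X i := by
      rw [X, monomial_mul, mul_one, hβ]
    rw [e, pp_mulX, pderiv_pow, pd_lin]
    have e2 : ((K + 1 : ℕ) : MvPolynomial (Fin n) ℝ) *
        (∑ j, C (b j) * X j : MvPolynomial (Fin n) ℝ) ^ (K + 1 - 1) * C (b i) =
        C (((K + 1 : ℕ) : ℝ) * b i) * (∑ j, C (b j) * X j : MvPolynomial (Fin n) ℝ) ^ K := by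
      rw [Nat.add_sub_cancel, C_mul, ← C_eq_coe_nat]
      ring
    rw [e2, pp_rC, ih β hβd]
    have e3 : (∏ k, b k ^ α k) = (∏ k, b k ^ β k) * b i := by
      have h1 : ∀ k, b k ^ α k = b k ^ β k * (if k = i then b i else 1) := by
        intro k
        rw [← hβ, Finsupp.add_apply, pow_add]
        congr 1
        by_cases hk : k = i
        · subst hk
          rw [if_pos rfl, Finsupp.single_eq_same, pow_one]
        · rw [if_neg hk, Finsupp.single_eq_of_ne hk, pow_zero]
      rw [Finset.prod_congr rfl fun k _ => h1 k, Finset.prod_mul_distrib,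
        Finset.prod_ite_eq' Finset.univ i, if_pos (Finset.mem_univ _)]
    rw [e3, Nat.factorial_succ]
    push_cast
    ring

theorem pair_pow {n K : ℕ} (D : MvPolynomial (Fin n) ℝ) (hD : D.IsHomogeneous K) (b : Fin n → ℝ) :
    pair D ((∑ j, C (b j) * X j) ^ K) = (K.factorial : ℝ) * eval b D := by
  classical
  have h1 : ∀ α ∈ D.support, coeff α D * (∏ i, ((α i).factorial : ℝ)) *
      coeff α ((∑ j, C (b j) * X j : MvPolynomial (Fin n) ℝ) ^ K) =
      (K.factorial : ℝ) * (coeff α D * ∏ i, b i ^ α i) := by
    intro α hα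
    have hd : α.degree = K := by
      have := hD (mem_support_iff.1 hα)
      rw [Finsupp.degree_eq_weight_one]
      exact this
    have h2 := pow_mono b K α hd
    rw [pp_mono, one_mul] at h2
    rw [mul_assoc, h2]
    ring
  unfold pair
  rw [Finset.sum_congr rfl h1, ← Finset.mul_sum, eval_eq']

end Pool.Agent.H9.IP
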