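import Pool.Agent.H9.IP.Defs

/-!
# Linear substitution: products, homogeneous polynomials, rank one matrices, continuity
-/

set_option autoImplicit false

open MvPolynomial Matrix

namespace Pool.Agent.H9.IP

theorem lsub_mul {n : ℕ} (A B : Matrix (Fin n) (Fin n) ℝ) (p : MvPolynomial (Fin n) ℝ) :
    lsub (A * B) p = lsub B (lsub A p) := by
  unfold lsub
  rw [MvPolynomial.comp_aeval_apply]
  congr 2
  funext i
  rw [map_sum]
  have h1 : ∀ j : Fin n, aeval (fun i => ∑ k, C (B i k) * X k)
      (C (A i j) * X j : MvPolynomial (Fin n) ℝ) = ∑ k, C (A i j * B j k) * X k := by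
    intro j
    rw [map_mul, aeval_X, Finset.mul_sum, MvPolynomial.algHom_C, MvPolynomial.algebraMap_eq]
    refine Finset.sum_congr rfl fun k _ => ?_
    rw [C_mul]
    ring
  rw [Finset.sum_congr rfl fun j _ => h1 j, Finset.sum_comm]
  refine Finset.sum_congr rfl fun k _ => ?_
  rw [Matrix.mul_apply, map_sum, Finset.sum_mul]

private theorem hom_sum {n K : ℕ} {p : MvPolynomial (Fin n) ℝ} (hp : p.IsHomogeneous K)
    {d : Fin n →₀ ℕ} (hd : d ∈ p.support) : ∑ i, d i = K := by
  have h := hp (MvPolynomial.mem_support_iff.1 hd)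
  rw [Finsupp.weight_apply, Finsupp.sum_fintype _ _ (fun i => by simp)] at h
  simpa using h

theorem lsub_smul {n K : ℕ} (c : ℝ) (A : Matrix (Fin n) (Fin n) ℝ) (p : MvPolynomial (Fin n) ℝ)
    (hp : p.IsHomogeneous K) : lsub (c • A) p = C (c ^ K) * lsub A p := by
  unfold lsub
  rw [aeval_def, aeval_def, eval₂_eq', eval₂_eq', Finset.mul_sum]
  refine Finset.sum_congr rfl fun d hd => ?_
  have h1 : ∀ i : Fin n, (∑ j, C ((c • A) i j) * X j : MvPolynomial (Fin n) ℝ) =
      C c * ∑ j, C (A i j) * X j := by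
    intro i
    rw [Finset.mul_sum]
    refine Finset.sum_congr rfl fun j _ => ?_
    rw [Matrix.smul_apply, smul_eq_mul, C_mul]
    ring
  have h2 : ∏ i, (∑ j, C ((c • A) i j) * X j : MvPolynomial (Fin n) ℝ) ^ d i =
      C (c ^ K) * ∏ i, (∑ j, C (A i j) * X j) ^ d i := by
    rw [Finset.prod_congr rfl fun i _ => by rw [h1 i, mul_pow], Finset.prod_mul_distrib,
      Finset.prod_pow_eq_pow_sum, hom_sum hp hd, C_pow]
  rw [h2]
  ring

theorem lsub_rank_one {n K : ℕ} (a b : Fin n → ℝ) (p : MvPolynomial (Fin n) ℝ)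
    (hp : p.IsHomogeneous K) :
    lsub (Matrix.vecMulVec a b) p = C (eval a p) * (∑ j, C (b j) * X j) ^ K := by
  unfold lsub
  rw [aeval_def, eval₂_eq', eval_eq', map_sum, Finset.sum_mul]
  refine Finset.sum_congr rfl fun d hd => ?_
  have h1 : ∀ i : Fin n, (∑ j, C (Matrix.vecMulVec a b i j) * X j : MvPolynomial (Fin n) ℝ) =
      C (a i) * ∑ j, C (b j) * X j := by
    intro i
    rw [Finset.mul_sum]
    refine Finset.sum_congr rfl fun j _ => ?_
    rw [Matrix.vecMulVec_apply, C_mul]
    ring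
  have h2 : ∏ i, (∑ j, C (Matrix.vecMulVec a b i j) * X j : MvPolynomial (Fin n) ℝ) ^ d i =
      C (∏ i, a i ^ d i) * (∑ j, C (b j) * X j) ^ K := by
    rw [Finset.prod_congr rfl fun i _ => by rw [h1 i, mul_pow], Finset.prod_mul_distrib,
      Finset.prod_pow_eq_pow_sum, hom_sum hp hd, map_prod]
    congr 1
    exact Finset.prod_congr rfl fun i _ => (C_pow _ _).symm
  rw [h2, MvPolynomial.algebraMap_eq, C_mul]
  ring

private theorem eval_lsub {n : ℕ} (A : Matrix (Fin n) (Fin n) ℝ) (p : MvPolynomial (Fin n) ℝ)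
    (x : Fin n → ℝ) : eval x (lsub A p) = eval (A *ᵥ x) p := by
  unfold lsub
  rw [aeval_def, eval₂_eq', MvPolynomial.eval_eq' (A *ᵥ x) p, map_sum]
  refine Finset.sum_congr rfl fun d _ => ?_
  rw [map_mul, map_prod, MvPolynomial.algebraMap_eq, eval_C]
  congr 1
  refine Finset.prod_congr rfl fun i _ => ?_
  rw [map_pow, map_sum]
  congr 1
  rw [Matrix.mulVec, dotProduct]
  refine Finset.sum_congr rfl fun j _ => ?_
  rw [map_mul, eval_C, eval_X]

theorem lsub_eq_of_eval {n : ℕ} (A : Matrix (Fin n) (Fin n) ℝ) (p : MvPolynomial (Fin n) ℝ)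
    (h : ∀ x : Fin n → ℝ, eval (A *ᵥ x) p = eval x p) : lsub A p = p := by
  refine MvPolynomial.funext fun x => ?_
  rw [eval_lsub, h x]

theorem pair_C_mul {n : ℕ} (c : ℝ) (D p : MvPolynomial (Fin n) ℝ) :
    pair D (C c * p) = c * pair D p := by
  unfold pair
  rw [Finset.mul_sum]
  refine Finset.sum_congr rfl fun α _ => ?_
  rw [coeff_C_mul]
  ring

/-- the coefficients depend continuously on the parameter -/
private def CC {n : ℕ} (F : Matrix (Fin n) (Fin n) ℝ → MvPolynomial (Fin n) ℝ) : Prop :=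
  ∀ α, Continuous fun A => coeff α (F A)

private theorem CC.const {n : ℕ} (q : MvPolynomial (Fin n) ℝ) : CC fun _ => q :=
  fun _ => continuous_const

private theorem CC.mul {n : ℕ} {F G : Matrix (Fin n) (Fin n) ℝ → MvPolynomial (Fin n) ℝ}
    (hF : CC F) (hG : CC G) : CC fun A => F A * G A := by
  classical
  intro α
  simp only [coeff_mul]
  exact continuous_finsetSum _ fun x _ => (hF x.1).mul (hG x.2)

private theorem CC.sum {n : ℕ} {ι : Type} (s : Finset ι)
    {F : ι → Matrix (Fin n) (Fin n) ℝ → MvPolynomial (Fin n) ℝ} (hF : ∀ i ∈ s, CC (F i)) :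
    CC fun A => ∑ i ∈ s, F i A := by
  intro α
  simp only [coeff_sum]
  exact continuous_finsetSum _ fun i hi => hF i hi α

private theorem CC.pow {n : ℕ} {F : Matrix (Fin n) (Fin n) ℝ → MvPolynomial (Fin n) ℝ}
    (hF : CC F) (k : ℕ) : CC fun A => F A ^ k := by
  induction k with
  | zero =>
    simp only [pow_zero]
    exact CC.const 1
  | succ k ih =>
    simp only [pow_succ]
    exact ih.mul hF

private theorem CC.prod {n : ℕ} {ι : Type} (s : Finset ι)
    {F : ι → Matrix (Fin n) (Fin n) ℝ → MvPolynomial (Fin n) ℝ} (hF : ∀ i, CC (F i)) :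
    CC fun A => ∏ i ∈ s, F i A := by
  classical
  induction s using Finset.induction_on with
  | empty =>
    simp only [Finset.prod_empty]
    exact CC.const 1
  | insert a s ha ih =>
    simp only [Finset.prod_insert ha]
    exact (hF a).mul ih

theorem pair_cont {n : ℕ} (D p : MvPolynomial (Fin n) ℝ) :
    Continuous fun A : Matrix (Fin n) (Fin n) ℝ => pair D (lsub A p) := by
  have hl : CC fun A : Matrix (Fin n) (Fin n) ℝ => lsub A p := by
    have h1 : (fun A : Matrix (Fin n) (Fin n) ℝ => lsub A p) = fun A =>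
        ∑ d ∈ p.support, C (coeff d p) * ∏ i, (∑ j, C (A i j) * X j) ^ d i := by
      funext A
      unfold lsub
      rw [aeval_def, eval₂_eq', MvPolynomial.algebraMap_eq]
    rw [h1]
    refine CC.sum _ fun d _ => (CC.const _).mul (CC.prod _ fun i => CC.pow (CC.sum _ fun j _ => ?_) _)
    intro α
    simp only [coeff_C_mul]
    exact (continuous_id.matrix_elem i j).mul continuous_const
  unfold pair
  exact continuous_finsetSum _ fun α _ => continuous_const.mul (hl α)

end Pool.Agent.H9.IP
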