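import Mathlib
import Pool.Agent.H21.CQ.Core
import Pool.Agent.H9.IH.Top
import Pool.Agent.H9.IP.Pair
import Pool.Agent.H9.IP.Sub
import Pool.Agent.H9.IP.Gen

/-!
# Invariant polynomials of cocompact groups
-/

set_option autoImplicit false

open MvPolynomial Matrix Module Filter Topology

namespace Pool.Agent.H9.IP

private theorem sl_lc (n : ℕ) : LocallyCompactSpace (SpecialLinearGroup (Fin n) ℝ) := by
  have : LocallyCompactSpace (Matrix (Fin n) (Fin n) ℝ) :=
    inferInstanceAs (LocallyCompactSpace (Fin n → Fin n → ℝ))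
  exact SpecialLinearGroup.isClosedEmbedding_val.locallyCompactSpace

/-- the lifted form of the compactness of the quotient -/
theorem cover {m n : ℕ} (ψ : SpecialLinearGroup (Fin m) ℝ →* SpecialLinearGroup (Fin n) ℝ)
    (Γ : Subgroup (SpecialLinearGroup (Fin n) ℝ))
    (hc : CompactSpace (MulAction.orbitRel.Quotient Γ (SpecialLinearGroup (Fin n) ℝ ⧸ ψ.range))) :
    ∃ C : Set (SpecialLinearGroup (Fin n) ℝ), IsCompact C ∧
      ∀ g, ∃ γ ∈ Γ, ∃ h ∈ ψ.range, γ * g * h ∈ C := by
  have := sl_lc n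
  exact Pool.Agent.H9.IH.compact_lift ψ.range Γ Γ le_rfl (by simp) hc

/-- left `Γ`-invariant, right `H`-invariant continuous functions are bounded -/
private theorem bdd {n : ℕ} (H Γ : Subgroup (SpecialLinearGroup (Fin n) ℝ))
    (hc : ∃ C : Set (SpecialLinearGroup (Fin n) ℝ), IsCompact C ∧
      ∀ g, ∃ γ ∈ Γ, ∃ h ∈ H, γ * g * h ∈ C)
    (F : SpecialLinearGroup (Fin n) ℝ → ℝ) (hF : Continuous F)
    (hl : ∀ γ ∈ Γ, ∀ g, F (γ * g) = F g) (hr : ∀ h ∈ H, ∀ g, F (g * h) = F g) :
    ∃ M, ∀ g, |F g| ≤ M := by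
  obtain ⟨C, hC, hCg⟩ := hc
  obtain ⟨M, hM⟩ := hC.exists_bound_of_continuousOn hF.continuousOn
  refine ⟨M, fun g => ?_⟩
  obtain ⟨γ, hγ, h, hh, hgh⟩ := hCg g
  have h1 := hM _ hgh
  rwa [hr h hh, hl γ hγ] at h1

/-- every regular function on `SL(n, ℝ)`, left `Γ`-invariant and right `H`-invariant, is constant -/
theorem regular_const {n : ℕ} (H Γ : Subgroup (SpecialLinearGroup (Fin n) ℝ))
    (hc : ∃ C : Set (SpecialLinearGroup (Fin n) ℝ), IsCompact C ∧
      ∀ g, ∃ γ ∈ Γ, ∃ h ∈ H, γ * g * h ∈ C)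
    (p : MvPolynomial (Fin n × Fin n) ℝ) (F : SpecialLinearGroup (Fin n) ℝ → ℝ)
    (hp : ∀ g, F g = eval (fun ij => (g : Matrix (Fin n) (Fin n) ℝ) ij.1 ij.2) p)
    (hl : ∀ γ ∈ Γ, ∀ g, F (γ * g) = F g) (hr : ∀ h ∈ H, ∀ g, F (g * h) = F g) (g) :
    F g = F 1 := by
  have hFc : Continuous F := by
    have h1 : F = fun g : SpecialLinearGroup (Fin n) ℝ =>
        eval (fun ij : Fin n × Fin n => (g : Matrix (Fin n) (Fin n) ℝ) ij.1 ij.2) p :=
      funext hp
    rw [h1]
    have h2 : Continuous fun g : SpecialLinearGroup (Fin n) ℝ =>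
        (fun ij : Fin n × Fin n => (g : Matrix (Fin n) (Fin n) ℝ) ij.1 ij.2) :=
      continuous_pi fun ij => continuous_subtype_val.matrix_elem ij.1 ij.2
    exact (MvPolynomial.continuous_eval p).comp h2
  obtain ⟨M, hM⟩ := bdd H Γ hc F hFc hl hr
  refine const_of_transvection F ?_ g
  intro g e i j t hij he
  -- the polynomial along the line
  let A : Matrix (Fin n) (Fin n) ℝ := (g : Matrix (Fin n) (Fin n) ℝ)
  let B : Matrix (Fin n) (Fin n) ℝ := A * Matrix.single i j 1
  let q : Polynomial ℝ := MvPolynomial.aeval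
    (fun ij : Fin n × Fin n => Polynomial.C (A ij.1 ij.2) + Polynomial.X * Polynomial.C (B ij.1 ij.2)) p
  have hq : ∀ s : ℝ, q.eval s = eval (fun ij => (A * transvection i j s) ij.1 ij.2) p := by
    intro s
    have h1 : q.eval s = MvPolynomial.eval₂ (RingHom.id ℝ)
        (fun ij : Fin n × Fin n => A ij.1 ij.2 + s * B ij.1 ij.2) p := by
      show Polynomial.eval s (MvPolynomial.aeval _ p) = _
      rw [← Polynomial.coe_evalRingHom, MvPolynomial.aeval_def, MvPolynomial.hom_eval₂]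
      congr 1
      · ext x
        simp
      · funext ij
        simp
        ring
    rw [h1]
    have h2 : (fun ij : Fin n × Fin n => (A * transvection i j s) ij.1 ij.2) =
        fun ij : Fin n × Fin n => A ij.1 ij.2 + s * B ij.1 ij.2 := by
      funext ij
      have h3 : A * transvection i j s = A + s • B := by
        show A * (1 + Matrix.single i j s) = A + s • (A * Matrix.single i j 1)
        rw [mul_add, mul_one, ← Matrix.mul_smul]
        congr 2
        simp
      rw [h3]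
      rfl
    rw [h2]
    rfl
  have hbd : ∀ s : ℝ, |q.eval s| ≤ M := by
    intro s
    have hdet : (transvection i j s).det = 1 := det_transvection_of_ne i j hij s
    let e' : SpecialLinearGroup (Fin n) ℝ := ⟨transvection i j s, hdet⟩
    have h1 := hM (g * e')
    rw [hp] at h1
    rw [hq]
    exact h1
  have hdeg : q.degree ≤ 0 := by
    rw [← Polynomial.isBoundedUnder_abs_atTop_iff]
    exact ⟨M, Filter.eventually_map.2 (Filter.Eventually.of_forall hbd)⟩
  have hqc : ∀ s, q.eval s = q.eval 0 := by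
    intro s
    rw [Polynomial.eq_C_of_degree_le_zero hdeg]
    simp
  have h3 : F (g * e) = q.eval t := by
    rw [hp, Matrix.SpecialLinearGroup.coe_mul, he, hq]
  have h4 : F g = q.eval 0 := by
    rw [hp, hq]
    have : A * transvection i j 0 = A := by
      rw [transvection_zero, mul_one]
    rw [this]
  rw [h3, h4, hqc]

private theorem exists_frame_one {n : ℕ} (hn : 2 ≤ n) (v w : Fin n → ℝ) (hv : v ≠ 0) (hw : w ≠ 0) :
    ∃ g : SpecialLinearGroup (Fin n) ℝ, (g : Matrix (Fin n) (Fin n) ℝ) *ᵥ v = w := by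
  have h1 : LinearIndependent ℝ (fun _ : Fin 1 => v) := by
    rw [linearIndependent_unique_iff]
    exact hv
  have h2 : LinearIndependent ℝ (fun _ : Fin 1 => w) := by
    rw [linearIndependent_unique_iff]
    exact hw
  obtain ⟨g, hg⟩ := Pool.Agent.H21.CQ.exists_frame (by omega) _ _ h1 h2
  exact ⟨g, hg 0⟩

/-- the core: no invariant polynomial -/
theorem core {n : ℕ} (hn : 2 ≤ n) (H Γ : Subgroup (SpecialLinearGroup (Fin n) ℝ))
    (hc : ∃ C : Set (SpecialLinearGroup (Fin n) ℝ), IsCompact C ∧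
      ∀ g, ∃ γ ∈ Γ, ∃ h ∈ H, γ * g * h ∈ C)
    (D f : MvPolynomial (Fin n) ℝ) (k r : ℕ) (hk : 0 < k) (hr : 0 < r)
    (hD : D.IsHomogeneous k) (hf : f.IsHomogeneous r) (hD0 : D ≠ 0)
    (hDi : ∀ h ∈ H, ∀ b, eval ((h : Matrix (Fin n) (Fin n) ℝ)ᵀ *ᵥ b) D = eval b D)
    (hfi : ∀ γ ∈ Γ, ∀ v, eval ((γ : Matrix (Fin n) (Fin n) ℝ) *ᵥ v) f = eval v f) : f = 0 := by
  by_contra hf0
  set D' := D ^ r with hD'
  set f' := f ^ k with hf'
  have hDh : D'.IsHomogeneous (k * r) := hD.pow r
  have hfh : f'.IsHomogeneous (k * r) := by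
    have h := hf.pow k
    rwa [mul_comm] at h
  have hDs : ∀ h ∈ H, lsub (h : Matrix (Fin n) (Fin n) ℝ)ᵀ D' = D' := fun h hh =>
    lsub_eq_of_eval _ _ fun b => by rw [hD', map_pow, map_pow, hDi h hh]
  have hfs : ∀ γ ∈ Γ, lsub (γ : Matrix (Fin n) (Fin n) ℝ) f' = f' := fun γ hγ =>
    lsub_eq_of_eval _ _ fun v => by rw [hf', map_pow, map_pow, hfi γ hγ]
  -- the bounded function
  let F : SpecialLinearGroup (Fin n) ℝ → ℝ := fun g =>
    pair D' (lsub (g : Matrix (Fin n) (Fin n) ℝ) f')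
  have hFc : Continuous F := (pair_cont D' f').comp continuous_subtype_val
  obtain ⟨M, hM⟩ := bdd H Γ hc F hFc
    (fun γ hγ g => by
      show pair D' (lsub ((γ * g : SpecialLinearGroup (Fin n) ℝ) : Matrix (Fin n) (Fin n) ℝ) f') = _
      rw [Matrix.SpecialLinearGroup.coe_mul, lsub_mul, hfs γ hγ])
    (fun h hh g => by
      show pair D' (lsub ((g * h : SpecialLinearGroup (Fin n) ℝ) : Matrix (Fin n) (Fin n) ℝ) f') = _
      rw [Matrix.SpecialLinearGroup.coe_mul, lsub_mul, ← pair_lsub, hDs h hh])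
  -- points where `f` and `D` do not vanish
  have hex : ∀ p : MvPolynomial (Fin n) ℝ, p ≠ 0 → ∃ x, eval x p ≠ 0 := by
    intro p hp
    by_contra hcon
    push Not at hcon
    exact hp (MvPolynomial.funext fun x => by rw [hcon x, map_zero])
  obtain ⟨a, ha⟩ := hex f hf0
  obtain ⟨b, hb⟩ := hex D hD0
  have hne : ∀ (p : MvPolynomial (Fin n) ℝ) (s : ℕ), 0 < s → p.IsHomogeneous s →
      ∀ x, eval x p ≠ 0 → x ≠ 0 := by
    intro p s hs hp x hx h0
    apply hx
    rw [h0]
    have h1 : eval (0 : Fin n → ℝ) p = coeff 0 p := by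
      rw [MvPolynomial.eval_zero, MvPolynomial.constantCoeff_eq]
    rw [h1]
    apply hp.coeff_eq_zero
    simp
    omega
  have ha0 : a ≠ 0 := hne f r hr hf a ha
  have hb0 : b ≠ 0 := hne D k hk hD b hb
  set i₀ : Fin n := ⟨0, by omega⟩ with hi₀
  obtain ⟨g₁, hg₁⟩ := exists_frame_one hn (Pi.single i₀ 1) a
    (fun h => by have := congrFun h i₀; simp at this) ha0
  obtain ⟨g₂, hg₂⟩ := exists_frame_one hn (Pi.single i₀ 1) b
    (fun h => by have := congrFun h i₀; simp at this) hb0
  set K := k * r with hK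
  have hK0 : 0 < K := Nat.mul_pos hk hr
  -- diagonal matrices
  let T : ℝ → Matrix (Fin n) (Fin n) ℝ := fun t => Matrix.diagonal fun i => if i = i₀ then 1 else t ^ n
  let G : ℝ → ℝ := fun t => pair D' (lsub ((g₁ : Matrix (Fin n) (Fin n) ℝ) * T t *
    (g₂ : Matrix (Fin n) (Fin n) ℝ)ᵀ) f')
  have hTc : Continuous T := by
    refine Continuous.matrix_diagonal ?_
    refine continuous_pi fun i => ?_
    split_ifs
    · exact continuous_const
    · exact continuous_id.pow n
  have hGc : Continuous G := by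
    refine (pair_cont D' f').comp ?_
    exact (continuous_const.matrix_mul hTc).matrix_mul continuous_const
  have hG0 : G 0 = ((K.factorial : ℝ) * eval b D') * eval a f' := by
    have h1 : (g₁ : Matrix (Fin n) (Fin n) ℝ) * T 0 * (g₂ : Matrix (Fin n) (Fin n) ℝ)ᵀ =
        Matrix.vecMulVec a b := by
      have h2 : T 0 = Matrix.vecMulVec (Pi.single i₀ 1) (Pi.single i₀ 1) := by
        ext i j
        simp only [T, Matrix.diagonal_apply, Matrix.vecMulVec_apply, Pi.single_apply]
        have : (0 : ℝ) ^ n = 0 := zero_pow (by omega)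
        rw [this]
        split_ifs <;> simp_all
      rw [h2, Matrix.mul_vecMulVec, Matrix.vecMulVec_mul, Matrix.vecMul_transpose, hg₁, hg₂]
    show pair D' (lsub _ f') = _
    rw [h1, lsub_rank_one a b f' hfh, pair_C_mul, pair_pow D' hDh b]
    ring
  have hGt : ∀ t : ℝ, 0 < t → |G t| ≤ M * t ^ ((n - 1) * K) := by
    intro t ht
    -- the normalised matrix
    have hdet : (Matrix.diagonal fun i : Fin n => if i = i₀ then (t ^ (n - 1))⁻¹ else t).det = 1 := by
      rw [Matrix.det_diagonal, Finset.prod_ite, Finset.prod_const, Finset.prod_const]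
      have h1 : (Finset.univ.filter fun i : Fin n => i = i₀).card = 1 := by
        rw [Finset.filter_eq' Finset.univ i₀]
        simp
      have h2 : (Finset.univ.filter fun i : Fin n => ¬ i = i₀).card = n - 1 := by
        have h3 := Finset.card_filter_add_card_filter_not (s := (Finset.univ : Finset (Fin n)))
          (fun i : Fin n => i = i₀)
        rw [h1, Finset.card_univ, Fintype.card_fin] at h3
        omega
      rw [h1, h2, pow_one, inv_mul_cancel₀ (pow_ne_zero _ ht.ne')]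
    let z : SpecialLinearGroup (Fin n) ℝ :=
      ⟨Matrix.diagonal fun i : Fin n => if i = i₀ then (t ^ (n - 1))⁻¹ else t, hdet⟩
    have hz : T t = (t ^ (n - 1)) • (z : Matrix (Fin n) (Fin n) ℝ) := by
      ext i j
      show Matrix.diagonal _ i j = t ^ (n - 1) * Matrix.diagonal _ i j
      rw [Matrix.diagonal_apply, Matrix.diagonal_apply]
      by_cases hij : i = j
      · rw [if_pos hij, if_pos hij]
        by_cases hi : i = i₀
        · rw [if_pos hi, if_pos hi, mul_inv_cancel₀ (pow_ne_zero _ ht.ne')]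
        · rw [if_neg hi, if_neg hi, ← pow_succ]
          congr 1
          omega
      · rw [if_neg hij, if_neg hij, mul_zero]
    have h1 : (g₁ : Matrix (Fin n) (Fin n) ℝ) * T t * (g₂ : Matrix (Fin n) (Fin n) ℝ)ᵀ =
        (t ^ (n - 1)) • ((g₁ * z * g₂.transpose : SpecialLinearGroup (Fin n) ℝ) :
          Matrix (Fin n) (Fin n) ℝ) := by
      rw [hz, Matrix.mul_smul, Matrix.smul_mul, Matrix.SpecialLinearGroup.coe_mul,
        Matrix.SpecialLinearGroup.coe_mul, Matrix.SpecialLinearGroup.coe_transpose]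
    have h2 : G t = (t ^ (n - 1)) ^ K * F (g₁ * z * g₂.transpose) := by
      show pair D' (lsub _ f') = _
      rw [h1, lsub_smul _ _ f' hfh, pair_C_mul]
    rw [h2, abs_mul, abs_of_nonneg (pow_nonneg (pow_nonneg ht.le _) _), ← pow_mul, mul_comm]
    exact mul_le_mul_of_nonneg_right (hM _) (pow_nonneg ht.le _)
  have hlim : Tendsto (fun t : ℝ => M * t ^ ((n - 1) * K)) (𝓝[>] 0) (𝓝 0) := by
    have h1 : Continuous fun t : ℝ => M * t ^ ((n - 1) * K) := by fun_prop
    have h2 := h1.tendsto 0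
    rw [zero_pow (Nat.mul_pos (by omega) hK0).ne', mul_zero] at h2
    exact h2.mono_left nhdsWithin_le_nhds
  have hG00 : G 0 = 0 := by
    have h1 : Tendsto (fun t => |G t|) (𝓝[>] 0) (𝓝 |G 0|) :=
      (hGc.abs.tendsto 0).mono_left nhdsWithin_le_nhds
    have h2 : |G 0| ≤ 0 := le_of_tendsto_of_tendsto h1 hlim
      (eventually_nhdsWithin_of_forall fun t ht => hGt t ht)
    exact abs_nonpos_iff.1 h2
  rw [hG0, hD', hf', map_pow, map_pow] at hG00
  have h3 : ((K.factorial : ℝ) * eval b D ^ r) * eval a f ^ k ≠ 0 :=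
    mul_ne_zero (mul_ne_zero (by exact_mod_cast K.factorial_ne_zero) (pow_ne_zero _ hb))
      (pow_ne_zero _ ha)
  exact h3 hG00

end Pool.Agent.H9.IP
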